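import Mathlib.ModelTheory.ElementarySubstructures
import Mathlib.ModelTheory.FinitelyGenerated
import Mathlib.Tactic

/-!
# A unary algebra with many elementary subalgebras

The signature has the unary operations `P` (parent), `F m` (the child number `m`, for `m : ℕ`) and
`G` (the identity on the elements of even level, `P` on the elements of odd level).

`Node`: the elements are pairs (level, labels) where the label of an integer `i ≥ lev` says which
child of its parent the ancestor of level `i` is: `m + 1` for the child number `m`, and `0` for an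
additional child which is not the value of any of the operations `F m`; only finitely many labels
are not `0`.

For a nonempty upper set `K` of integers `S K` is the subalgebra of the elements without labels `0`
except at the positions `i`, `i ≥ i₀`, for some `i₀ ∈ K`. It is an elementary subalgebra.
-/

set_option autoImplicit false

open FirstOrder FirstOrder.Language

namespace Pool.Agent.Q300.Tree

/-- The operations. -/
inductive Op : ℕ → Type
  | P : Op 1
  | G : Op 1
  | F : ℕ → Op 1

/-- The signature: the unary operations `P`, `G` and `F m` (`m : ℕ`); no relations. -/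
def Lang : FirstOrder.Language.{0, 0} := ⟨Op, fun _ => Empty⟩

instance : Lang.IsAlgebraic := fun _ => (inferInstance : IsEmpty Empty)

/-- The elements of the big algebra. -/
@[ext]
structure Node where
  lev : ℤ
  lab : ℤ → ℕ
  low : ∀ i < lev, lab i = 0
  fin : ∃ i₀, ∀ i, i₀ ≤ i → lab i = 0

namespace Node

/-- The parent. -/
def par (x : Node) : Node where
  lev := x.lev + 1
  lab := Function.update x.lab x.lev 0
  low := by
    intro i hi
    by_cases h : i = x.lev
    · subst h; simp
    · rw [Function.update_of_ne h]
      exact x.low i (by omega)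
  fin := by
    obtain ⟨i₀, h⟩ := x.fin
    refine ⟨i₀, fun i hi => ?_⟩
    by_cases h' : i = x.lev
    · subst h'; simp
    · rw [Function.update_of_ne h']
      exact h i hi

/-- The child number `m`. -/
def child (m : ℕ) (x : Node) : Node where
  lev := x.lev - 1
  lab := Function.update x.lab (x.lev - 1) (m + 1)
  low := by
    intro i hi
    rw [Function.update_of_ne (by omega)]
    exact x.low i (by omega)
  fin := by
    obtain ⟨i₀, h⟩ := x.fin
    refine ⟨max i₀ x.lev, fun i hi => ?_⟩
    rw [Function.update_of_ne (by omega)]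
    exact h i (by omega)

open Classical in
/-- The identity on the elements of even level, the parent on the elements of odd level. -/
noncomputable def gee (x : Node) : Node := if Even x.lev then x else x.par

theorem par_child (m : ℕ) (x : Node) : (x.child m).par = x := by
  ext i
  · simp [par, child]
  · by_cases h : i = x.lev - 1
    · subst h
      simp [par, child]
      exact (x.low _ (by omega)).symm
    · simp [par, child, Function.update_of_ne h]

theorem child_par {x : Node} (h : x.lab x.lev ≠ 0) : x.par.child (x.lab x.lev - 1) = x := by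
  ext i
  · simp [par, child]
  · by_cases h' : i = x.lev
    · subst h'
      simp [par, child]
      omega
    · simp [par, child, Function.update_of_ne h']

/-- The special element of level `j`: all labels are `0`. -/
def special (j : ℤ) : Node where
  lev := j
  lab := fun _ => 0
  low := fun _ _ => rfl
  fin := ⟨0, fun _ _ => rfl⟩

theorem par_special (j : ℤ) : (special j).par = special (j + 1) := by
  ext i
  · rfl
  · simp [par, special]

end Node

open Node

noncomputable instance : Lang.Structure Node where
  funMap := fun {n} (f : Op n) =>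
    match n, f with
    | _, Op.P => fun v => (v 0).par
    | _, Op.G => fun v => (v 0).gee
    | _, Op.F m => fun v => (v 0).child m
  RelMap := fun {_} r => Empty.elim r

/-- The subalgebras. -/
def S (K : Set ℤ) : Lang.Substructure Node where
  carrier := {x | ∀ i, x.lev ≤ i → x.lab i = 0 → i ∈ K ∧ ∀ i', i ≤ i' → x.lab i' = 0}
  fun_mem := by
    have hpar : ∀ x : Node,
        (∀ i, x.lev ≤ i → x.lab i = 0 → i ∈ K ∧ ∀ i', i ≤ i' → x.lab i' = 0) →
        (∀ i, x.par.lev ≤ i → x.par.lab i = 0 → i ∈ K ∧ ∀ i', i ≤ i' → x.par.lab i' = 0) := by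
      intro x hx i hi h0
      have hi' : x.lev + 1 ≤ i := hi
      have hne : ∀ i', i ≤ i' → x.par.lab i' = x.lab i' := fun i' h =>
        Function.update_of_ne (by omega) _ _
      rw [hne i le_rfl] at h0
      obtain ⟨h1, h2⟩ := hx i (by omega) h0
      exact ⟨h1, fun i' h => by rw [hne i' h]; exact h2 i' h⟩
    intro n f
    match n, f with
    | _, Op.P => exact fun v hv => hpar _ (hv 0)
    | _, Op.G =>
      intro v hv
      change (v 0).gee ∈ _
      unfold gee
      split_ifs
      · exact hv 0
      · exact hpar _ (hv 0)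
    | _, Op.F m =>
      intro v hv i hi h0
      have hi' : (v 0).lev - 1 ≤ i := hi
      have h0' : Function.update (v 0).lab ((v 0).lev - 1) (m + 1) i = 0 := h0
      have hne0 : i ≠ (v 0).lev - 1 := by
        rintro rfl
        simp at h0'
      have hne : ∀ i', i ≤ i' → ((v 0).child m).lab i' = (v 0).lab i' := fun i' h =>
        Function.update_of_ne (by omega) _ _
      obtain ⟨h1, h2⟩ := hv 0 i (by omega) (by rw [← hne i le_rfl]; exact h0)
      exact ⟨h1, fun i' h => (hne i' h).trans (h2 i' h)⟩

theorem mem_S {K : Set ℤ} {x : Node} : x ∈ S K ↔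
    ∀ i, x.lev ≤ i → x.lab i = 0 → i ∈ K ∧ ∀ i', i ≤ i' → x.lab i' = 0 := Iff.rfl

/-! ### The swaps -/

/-- The transposition of `0` and `m + 1`. -/
def sw (m a : ℕ) : ℕ := if a = 0 then m + 1 else if a = m + 1 then 0 else a

theorem sw_sw (m a : ℕ) : sw m (sw m a) = a := by
  unfold sw
  by_cases h : a = 0
  · simp [h]
  · by_cases h' : a = m + 1
    · simp [h']
    · simp [h, h']

theorem sw_ne {m a : ℕ} (h0 : a ≠ 0) (h : a ≠ m + 1) : sw m a = a := by
  unfold sw
  rw [if_neg h0, if_neg h]

/-- The elements moved by `tau`. -/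
def Below (c : ℤ) (w : ℤ → ℕ) (x : Node) : Prop := x.lev ≤ c ∧ ∀ i, c < i → x.lab i = w i

open Classical in
/-- Exchange the child `m` and the additional child of the element of level `c + 1` with
labels `w`. -/
noncomputable def tau (c : ℤ) (w : ℤ → ℕ) (m : ℕ) (x : Node) : Node :=
  if _h : Below c w x then
    { lev := x.lev
      lab := Function.update x.lab c (sw m (x.lab c))
      low := by
        intro i hi
        have := _h.1
        rw [Function.update_of_ne (by omega)]
        exact x.low i hi
      fin := by
        obtain ⟨i₀, h⟩ := x.fin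
        refine ⟨max i₀ (c + 1), fun i hi => ?_⟩
        rw [Function.update_of_ne (by omega)]
        exact h i (by omega) }
  else x

section Tau

variable {c : ℤ} {w : ℤ → ℕ} {m : ℕ}

theorem tau_lev (x : Node) : (tau c w m x).lev = x.lev := by
  unfold tau
  split_ifs <;> rfl

theorem tau_lab {x : Node} (h : Below c w x) :
    (tau c w m x).lab = Function.update x.lab c (sw m (x.lab c)) := by
  unfold tau
  rw [dif_pos h]

theorem tau_of_not {x : Node} (h : ¬ Below c w x) : tau c w m x = x := by
  unfold tau
  rw [dif_neg h]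

theorem below_tau (x : Node) : Below c w (tau c w m x) ↔ Below c w x := by
  by_cases h : Below c w x
  · have : Below c w (tau c w m x) := by
      refine ⟨by rw [tau_lev]; exact h.1, fun i hi => ?_⟩
      rw [tau_lab h, Function.update_of_ne (by omega)]
      exact h.2 i hi
    exact ⟨fun _ => h, fun _ => this⟩
  · rw [tau_of_not h]

theorem tau_tau (x : Node) : tau c w m (tau c w m x) = x := by
  by_cases h : Below c w x
  · ext i
    · rw [tau_lev, tau_lev]
    · rw [tau_lab ((below_tau x).2 h), tau_lab h]
      by_cases hi : i = c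
      · subst hi
        simp [sw_sw]
      · simp [Function.update_of_ne hi]
  · rw [tau_of_not h, tau_of_not h]

theorem tau_eq_self {x : Node} (h : Below c w x → x.lab c ≠ 0 ∧ x.lab c ≠ m + 1) :
    tau c w m x = x := by
  by_cases hx : Below c w x
  · ext i
    · rw [tau_lev]
    · rw [tau_lab hx, sw_ne (h hx).1 (h hx).2, Function.update_eq_self]
  · exact tau_of_not hx

theorem tau_par (x : Node) : tau c w m x.par = (tau c w m x).par := by
  by_cases h : Below c w x
  · by_cases hc : x.lev = c
    · have h1 : ¬ Below c w x.par := by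
        rintro ⟨h1, -⟩
        have : x.lev + 1 ≤ c := h1
        omega
      rw [tau_of_not h1]
      ext i
      · simp [par, tau_lev]
      · simp only [par, tau_lab h, tau_lev, hc]
        rw [Function.update_idem]
    · have h1 : Below c w x.par := by
        refine ⟨?_, fun i hi => ?_⟩
        · have := h.1
          change x.lev + 1 ≤ c
          omega
        · have := h.1
          simp only [par]
          rw [Function.update_of_ne (by omega)]
          exact h.2 i hi
      ext i
      · simp [par, tau_lev]
      · rw [tau_lab h1]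
        simp only [par, tau_lab h, tau_lev]
        rw [Function.update_of_ne (fun h => hc h.symm), Function.update_comm hc]
  · have h1 : ¬ Below c w x.par := by
      rintro ⟨h1, h2⟩
      have h1' : x.lev + 1 ≤ c := h1
      refine h ⟨by omega, fun i hi => ?_⟩
      rw [← h2 i hi]
      simp only [par]
      rw [Function.update_of_ne (by omega)]
    rw [tau_of_not h, tau_of_not h1]

theorem tau_child {n : ℕ} (hn : n ≠ m) (x : Node) :
    tau c w m (x.child n) = (tau c w m x).child n := by
  by_cases h : Below c w x
  · have h1 : Below c w (x.child n) := by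
      refine ⟨?_, fun i hi => ?_⟩
      · have := h.1
        change x.lev - 1 ≤ c
        omega
      · have := h.1
        simp only [child]
        rw [Function.update_of_ne (by omega)]
        exact h.2 i hi
    ext i
    · simp [child, tau_lev]
    · have hlev := h.1
      rw [tau_lab h1]
      simp only [child, tau_lab h, tau_lev]
      have hne : c ≠ x.lev - 1 := by omega
      rw [Function.update_of_ne hne, Function.update_comm hne]
  · rw [tau_of_not h]
    apply tau_eq_self
    rintro ⟨h1, h2⟩
    have h1' : x.lev - 1 ≤ c := h1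
    have hlev : x.lev = c + 1 := by
      by_contra hcon
      refine h ⟨by omega, fun i hi => ?_⟩
      rw [← h2 i hi]
      simp only [child]
      rw [Function.update_of_ne (by omega)]
    have : (x.child n).lab c = n + 1 := by
      simp only [child]
      rw [hlev]
      simp
    rw [this]
    omega

theorem tau_gee (x : Node) : tau c w m x.gee = (tau c w m x).gee := by
  unfold gee
  rw [tau_lev]
  split_ifs
  · rfl
  · exact tau_par x

end Tau

/-! ### Every formula is invariant under almost all swaps -/

theorem term_inv {α : Type*} (t : Lang.Term α) : ∃ N : ℕ, ∀ m, N ≤ m → ∀ (c : ℤ) (w : ℤ → ℕ)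
    (v : α → Node), t.realize (tau c w m ∘ v) = tau c w m (t.realize v) := by
  induction t with
  | var a => exact ⟨0, fun m _ c w v => rfl⟩
  | @func n f ts ih =>
    match n, f with
    | _, Op.P =>
      obtain ⟨N, hN⟩ := ih 0
      refine ⟨N, fun m hm c w v => ?_⟩
      change ((ts 0).realize (tau c w m ∘ v)).par = tau c w m ((ts 0).realize v).par
      rw [hN m hm, tau_par]
    | _, Op.G =>
      obtain ⟨N, hN⟩ := ih 0
      refine ⟨N, fun m hm c w v => ?_⟩
      change ((ts 0).realize (tau c w m ∘ v)).gee = tau c w m ((ts 0).realize v).gee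
      rw [hN m hm, tau_gee]
    | _, Op.F k =>
      obtain ⟨N, hN⟩ := ih 0
      refine ⟨max N (k + 1), fun m hm c w v => ?_⟩
      change ((ts 0).realize (tau c w m ∘ v)).child k = tau c w m (((ts 0).realize v).child k)
      rw [hN m (by omega), tau_child (by omega)]

theorem formula_inv {α : Type*} {n : ℕ} (φ : Lang.BoundedFormula α n) :
    ∃ N : ℕ, ∀ m, N ≤ m → ∀ (c : ℤ) (w : ℤ → ℕ) (v : α → Node) (xs : Fin n → Node),
      φ.Realize (tau c w m ∘ v) (tau c w m ∘ xs) ↔ φ.Realize v xs := by
  induction φ with
  | falsum => exact ⟨0, fun m _ c w v xs => Iff.rfl⟩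
  | equal t₁ t₂ =>
    obtain ⟨N₁, h₁⟩ := term_inv t₁
    obtain ⟨N₂, h₂⟩ := term_inv t₂
    refine ⟨max N₁ N₂, fun m hm c w v xs => ?_⟩
    simp only [BoundedFormula.Realize, ← Sum.comp_elim, h₁ m (by omega), h₂ m (by omega)]
    constructor
    · intro h
      rw [← tau_tau (c := c) (w := w) (m := m) (t₁.realize (Sum.elim v xs)), h, tau_tau]
    · intro h
      rw [h]
  | rel R _ => exact Empty.elim R
  | imp f₁ f₂ ih₁ ih₂ =>
    obtain ⟨N₁, h₁⟩ := ih₁
    obtain ⟨N₂, h₂⟩ := ih₂
    refine ⟨max N₁ N₂, fun m hm c w v xs => ?_⟩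
    simp only [BoundedFormula.Realize, h₁ m (by omega), h₂ m (by omega)]
  | all f ih =>
    obtain ⟨N, h⟩ := ih
    refine ⟨N, fun m hm c w v xs => ?_⟩
    simp only [BoundedFormula.Realize]
    constructor
    · intro h1 a
      rw [← h m hm c w, Fin.comp_snoc]
      exact h1 _
    · intro h1 a
      rw [← tau_tau (c := c) (w := w) (m := m) a, ← Fin.comp_snoc, h m hm c w]
      exact h1 _

/-! ### The subalgebras are elementary -/

/-- The positions which are responsible for `x ∉ S K`. -/
def Bad (K : Set ℤ) (x : Node) : Set ℤ :=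
  {i | x.lev ≤ i ∧ x.lab i = 0 ∧ ¬ (i ∈ K ∧ ∀ i', i ≤ i' → x.lab i' = 0)}

theorem mem_S_iff_bad {K : Set ℤ} {x : Node} : x ∈ S K ↔ Bad K x = ∅ := by
  rw [mem_S, Set.eq_empty_iff_forall_notMem]
  constructor
  · intro h i hi
    exact hi.2.2 (h i hi.1 hi.2.1)
  · intro h i hi h0
    by_contra hcon
    exact h i ⟨hi, h0, hcon⟩

theorem bad_finite {K : Set ℤ} (hK : IsUpperSet K) (hne : K.Nonempty) (x : Node) :
    (Bad K x).Finite := by
  obtain ⟨i₀, h⟩ := x.fin
  obtain ⟨k, hk⟩ := hne
  apply (Set.finite_Icc x.lev (max i₀ k)).subset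
  intro i hi
  refine ⟨hi.1, ?_⟩
  by_contra hcon
  push Not at hcon
  exact hi.2.2 ⟨hK (by omega) hk, fun i' h' => h i' (by omega)⟩

theorem exists_swap {K : Set ℤ} (hK : IsUpperSet K) (hne : K.Nonempty) {x : Node}
    (hx : x ∉ S K) (N : ℕ) (A : Set Node) (hA : A.Finite) (hAS : A ⊆ S K) :
    ∃ (m : ℕ) (c : ℤ) (w : ℤ → ℕ), N ≤ m ∧ (∀ a ∈ A, tau c w m a = a) ∧
      (Bad K (tau c w m x)).ncard < (Bad K x).ncard := by
  have hfin := bad_finite hK hne x
  have hbne : (Bad K x).Nonempty := by
    rw [Set.nonempty_iff_ne_empty]
    exact fun h => hx (mem_S_iff_bad.2 h)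
  obtain ⟨c, hc, hmax⟩ := hfin.exists_maximal hbne
  have hmax' : ∀ i, i ∈ Bad K x → i ≤ c := fun i hi => by
    by_contra hcon
    exact hcon (hmax hi (by omega))
  -- a bound for the labels
  have hbd : ∃ m, N ≤ m ∧ ∀ a ∈ A, a.lab c ≠ m + 1 := by
    have h1 : ((fun a : Node => a.lab c) '' A).Finite := hA.image _
    obtain ⟨b, hb⟩ := h1.bddAbove
    refine ⟨max N b, le_max_left _ _, fun a ha h => ?_⟩
    have := hb ⟨a, ha, rfl⟩
    simp only at this
    omega
  obtain ⟨m, hm, hmA⟩ := hbd
  refine ⟨m, c, x.lab, hm, ?_, ?_⟩
  · intro a ha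
    apply tau_eq_self
    intro hbel
    refine ⟨fun h0 => ?_, hmA a ha⟩
    obtain ⟨h1, h2⟩ := hAS ha c hbel.1 h0
    refine hc.2.2 ⟨h1, fun i' hi' => ?_⟩
    rcases hi'.lt_or_eq with h3 | h3
    · rw [← hbel.2 i' h3]
      exact h2 i' hi'
    · rw [← h3]
      exact hc.2.1
  · have hbel : Below c x.lab x := ⟨hc.1, fun _ _ => rfl⟩
    apply Set.ncard_lt_ncard _ hfin
    have hlabc : (tau c x.lab m x).lab c = m + 1 := by
      rw [tau_lab hbel, hc.2.1]
      simp [sw]
    refine Set.ssubset_iff_subset_ne.2 ⟨?_, ?_⟩
    · rintro i ⟨h1, h2, h3⟩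
      rw [tau_lev] at h1
      have hic : i ≠ c := by
        rintro rfl
        rw [hlabc] at h2
        omega
      have hlab : ∀ i', i' ≠ c → (tau c x.lab m x).lab i' = x.lab i' := fun i' h => by
        rw [tau_lab hbel, Function.update_of_ne h]
      rw [hlab i hic] at h2
      refine ⟨h1, h2, ?_⟩
      rintro ⟨h4, h5⟩
      rcases lt_or_gt_of_ne hic with hlt | hgt
      · exact hc.2.2 ⟨hK hlt.le h4, fun i' hi' => h5 i' (by omega)⟩
      · refine h3 ⟨h4, fun i' hi' => ?_⟩
        rw [hlab i' (by omega)]
        exact h5 i' hi'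
    · intro heq
      have h1 : c ∈ Bad K (tau c x.lab m x) := by rw [heq]; exact hc
      have h2 := h1.2.1
      rw [hlabc] at h2
      omega

theorem S_elementary {K : Set ℤ} (hK : IsUpperSet K) (hne : K.Nonempty) :
    (S K).IsElementary := by
  apply Substructure.isElementary_of_exists
  intro n φ x a h
  obtain ⟨N, hN⟩ := formula_inv φ
  have key : ∀ d : ℕ, ∀ a : Node, (Bad K a).ncard ≤ d →
      φ.Realize default (Fin.snoc ((↑) ∘ x) a : _ → Node) →
      ∃ b : S K, φ.Realize default (Fin.snoc ((↑) ∘ x) b : _ → Node) := by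
    intro d
    induction d with
    | zero =>
      intro a ha h
      have : a ∈ S K := by
        rw [mem_S_iff_bad, ← Set.ncard_eq_zero (bad_finite hK hne a)]
        omega
      exact ⟨⟨a, this⟩, h⟩
    | succ d ih =>
      intro a ha h
      by_cases haS : a ∈ S K
      · exact ⟨⟨a, haS⟩, h⟩
      · obtain ⟨m, c, w, hm, hfix, hlt⟩ := exists_swap hK hne haS N
          (Set.range fun i => (x i : Node)) (Set.finite_range _) (by rintro _ ⟨i, rfl⟩; exact (x i).2)
        refine ih (tau c w m a) (by omega) ?_
        rw [← hN m hm c w] at h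
        have h1 : (tau c w m ∘ (Fin.snoc ((↑) ∘ x) a : Fin (n + 1) → Node)) =
            (Fin.snoc ((↑) ∘ x) (tau c w m a) : Fin (n + 1) → Node) := by
          rw [Fin.comp_snoc]
          congr 1
          funext i
          exact hfix _ ⟨i, rfl⟩
        rw [h1, Unique.eq_default (tau c w m ∘ (default : Empty → Node))] at h
        exact h
  exact key _ a le_rfl h

end Pool.Agent.Q300.Tree
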