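import Pool.Agent.Q300.Tree.Basic

/-!
# Types realized in the subalgebras `S K`
-/

set_option autoImplicit false

open FirstOrder FirstOrder.Language

namespace Pool.Agent.Q300.Tree

open Node

/-- The operation `P`. -/
def fP : Lang.Functions 1 := Op.P

/-- The operation `G`. -/
def fG : Lang.Functions 1 := Op.G

/-- The operation `F m`. -/
def fF (m : ℕ) : Lang.Functions 1 := Op.F m

/-! ### The shift automorphisms -/

/-- Shift all levels by `2 * d`. -/
def shift (d : ℤ) (x : Node) : Node where
  lev := x.lev + 2 * d
  lab := fun i => x.lab (i - 2 * d)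
  low := fun i hi => x.low _ (by omega)
  fin := by
    obtain ⟨i₀, h⟩ := x.fin
    exact ⟨i₀ + 2 * d, fun i hi => h _ (by omega)⟩

theorem shift_par (d : ℤ) (x : Node) : shift d x.par = (shift d x).par := by
  ext i
  · simp [shift, par]; ring
  · simp only [shift, par]
    by_cases h : i = x.lev + 2 * d
    · subst h
      simp
    · rw [Function.update_of_ne h, Function.update_of_ne (by omega)]

theorem shift_child (d : ℤ) (m : ℕ) (x : Node) : shift d (x.child m) = (shift d x).child m := by
  ext i
  · simp [shift, child]; ring
  · simp only [shift, child]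
    by_cases h : i = x.lev + 2 * d - 1
    · subst h
      rw [show x.lev + 2 * d - 1 - 2 * d = x.lev - 1 by ring]
      simp
    · rw [Function.update_of_ne h, Function.update_of_ne (by omega)]

theorem shift_gee (d : ℤ) (x : Node) : shift d x.gee = (shift d x).gee := by
  unfold gee
  have : Even (shift d x).lev ↔ Even x.lev := by
    simp [shift, Int.even_add]
  by_cases h : Even x.lev
  · rw [if_pos h, if_pos (this.2 h)]
  · rw [if_neg h, if_neg (fun h' => h (this.1 h')), shift_par]

theorem shift_shift (d : ℤ) (x : Node) : shift (-d) (shift d x) = x := by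
  ext i
  · simp [shift]
  · simp [shift]

theorem shift_shift' (d : ℤ) (x : Node) : shift d (shift (-d) x) = x := by
  ext i
  · simp [shift]
  · simp [shift]

/-- The shift as an automorphism. -/
noncomputable def shiftEquiv (d : ℤ) : Node ≃[Lang] Node where
  toFun := shift d
  invFun := shift (-d)
  left_inv := shift_shift d
  right_inv := shift_shift' d
  map_fun' := by
    intro n f v
    match n, f with
    | _, Op.P => exact shift_par d (v 0)
    | _, Op.G => exact shift_gee d (v 0)
    | _, Op.F m => exact shift_child d m (v 0)
  map_rel' := fun {_} r => Empty.elim r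

theorem shift_mem {K K' : Set ℤ} {d : ℤ} (h : ∀ i ∈ K, i + 2 * d ∈ K') {x : Node} (hx : x ∈ S K) :
    shift d x ∈ S K' := by
  intro i hi h0
  have hi' : x.lev + 2 * d ≤ i := hi
  obtain ⟨h1, h2⟩ := hx (i - 2 * d) (by omega) h0
  refine ⟨?_, fun i' hi' => h2 (i' - 2 * d) (by omega)⟩
  have := h _ h1
  rwa [sub_add_cancel] at this

/-- Every finite tuple of `S K` has the same type as a tuple of `S K'`, if `K` is bounded below
or `K'` is unbounded below; in general it is enough that some shift maps the tuple to `S K'`. -/
theorem types_of_shift {K K' : Set ℤ} (hK : IsUpperSet K) (hKne : K.Nonempty) (hK' : IsUpperSet K')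
    (hKne' : K'.Nonempty) {n : ℕ} (a : Fin n → S K) (d : ℤ)
    (hd : ∀ i, shift d (a i : Node) ∈ S K') :
    ∃ b : Fin n → S K', ∀ φ : Lang.Formula (Fin n), φ.Realize a ↔ φ.Realize b := by
  refine ⟨fun i => ⟨shift d (a i), hd i⟩, fun φ => ?_⟩
  have h1 : φ.Realize ((↑) ∘ a : Fin n → Node) ↔ φ.Realize a := by
    let E : Lang.ElementarySubstructure Node := ⟨S K, S_elementary hK hKne⟩
    exact E.subtype.map_formula φ a
  have h2 : φ.Realize ((↑) ∘ (fun i => (⟨shift d (a i), hd i⟩ : S K')) : Fin n → Node) ↔
      φ.Realize (fun i => (⟨shift d (a i), hd i⟩ : S K')) := by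
    let E : Lang.ElementarySubstructure Node := ⟨S K', S_elementary hK' hKne'⟩
    exact E.subtype.map_formula φ (fun i => (⟨shift d (a i), hd i⟩ : S K'))
  have h3 := StrongHomClass.realize_formula (shiftEquiv d) φ (v := ((↑) ∘ a : Fin n → Node))
  rw [← h1, ← h2, ← h3]
  exact Iff.rfl

/-! ### Generators -/

theorem special_mem {K : Set ℤ} (hK : IsUpperSet K) {k : ℤ} (hk : k ∈ K) : special k ∈ S K :=
  fun _ hi _ => ⟨hK (show k ≤ _ from hi) hk, fun _ _ => rfl⟩

theorem closure_special (k : ℤ) : Substructure.closure Lang {special k} = S (Set.Ici k) := by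
  apply le_antisymm
  · rw [Substructure.closure_le]
    rintro _ rfl
    exact special_mem (isUpperSet_Ici k) Set.self_mem_Ici
  · have hsp : ∀ n : ℕ, special (k + n) ∈ Substructure.closure Lang {special k} := by
      intro n
      induction n with
      | zero => simpa using Substructure.subset_closure (L := Lang) (Set.mem_singleton (special k))
      | succ n ih =>
        have h1 := (Substructure.closure Lang {special k}).fun_mem fP
          (fun _ => special (k + n)) (fun _ => ih)
        have h2 : Structure.funMap fP (fun _ => special (k + n)) =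
            special (k + (n + 1 : ℕ)) := by
          change (special (k + n)).par = _
          rw [par_special]
          push_cast
          ring_nf
        rw [h2] at h1
        exact h1
    have key : ∀ n : ℕ, ∀ x ∈ S (Set.Ici k), (∀ i, x.lev + n ≤ i → x.lab i = 0) →
        x ∈ Substructure.closure Lang {special k} := by
      intro n
      induction n with
      | zero =>
        intro x hx h0
        have h1 := (hx x.lev le_rfl (h0 _ (by simp))).1
        have h2 : x = special (k + (x.lev - k).toNat) := by
          ext i
          · have h1' : k ≤ x.lev := h1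
            simp only [special]
            omega
          · simp only [special]
            rcases lt_or_ge i x.lev with h | h
            · exact x.low i h
            · exact h0 i (by simpa using h)
        rw [h2]
        exact hsp _
      | succ n ih =>
        intro x hx h0
        by_cases h : x.lab x.lev = 0
        · have h1 := hx x.lev le_rfl h
          have h2 : x = special (k + (x.lev - k).toNat) := by
            ext i
            · have h1' : k ≤ x.lev := h1.1
              simp only [special]
              omega
            · simp only [special]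
              rcases lt_or_ge i x.lev with h | h
              · exact x.low i h
              · exact h1.2 i h
          rw [h2]
          exact hsp _
        · have hp : x.par ∈ S (Set.Ici k) :=
            (S (Set.Ici k)).fun_mem fP (fun _ => x) (fun _ => hx)
          have h1 := ih x.par hp (by
            intro i hi
            have hi' : x.lev + 1 + n ≤ i := hi
            simp only [par]
            rw [Function.update_of_ne (by omega)]
            exact h0 i (by push_cast; omega))
          have h2 := (Substructure.closure Lang {special k}).fun_mem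
            (fF (x.lab x.lev - 1)) (fun _ => x.par) (fun _ => h1)
          have h3 : Structure.funMap (fF (x.lab x.lev - 1)) (fun _ => x.par) =
              x := child_par h
          rw [h3] at h2
          exact h2
    intro x hx
    obtain ⟨i₀, h⟩ := x.fin
    exact key (i₀ - x.lev).toNat x hx fun i hi => h i (by omega)

theorem fg_Ici (k : ℤ) : Structure.FG Lang (S (Set.Ici k)) := by
  rw [← Substructure.fg_iff_structure_fg]
  exact ⟨{special k}, by rw [Finset.coe_singleton, closure_special]⟩

/-- The subalgebra `S (Set.Ici k)`, as an algebra, is generated by one element. -/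
theorem cyclic_Ici (k : ℤ) : ∃ a : S (Set.Ici k), Substructure.closure Lang {a} = ⊤ := by
  refine ⟨⟨special k, special_mem (isUpperSet_Ici k) Set.self_mem_Ici⟩, ?_⟩
  apply Substructure.map_injective_of_injective (f := (S (Set.Ici k)).subtype.toHom)
    (S (Set.Ici k)).subtype.injective
  rw [Substructure.map_closure, Set.image_singleton]
  change Substructure.closure Lang {special k} = _
  rw [closure_special]
  ext x
  constructor
  · intro hx
    exact ⟨⟨x, hx⟩, trivial, rfl⟩
  · rintro ⟨y, -, rfl⟩
    exact y.2

theorem not_fg_univ : ¬ Structure.FG Lang (S Set.univ) := by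
  rw [← Substructure.fg_iff_structure_fg]
  rintro ⟨s, hs⟩
  obtain ⟨k, hk⟩ : ∃ k : ℤ, ∀ x ∈ s, k ≤ x.lev := by
    have h1 : (Node.lev '' (s : Set Node)).Finite := s.finite_toSet.image _
    obtain ⟨b, hb⟩ := h1.bddBelow
    exact ⟨b, fun x hx => hb ⟨x, hx, rfl⟩⟩
  have h2 : Substructure.closure Lang (s : Set Node) ≤ S (Set.Ici k) := by
    rw [Substructure.closure_le]
    intro x hx i hi h0
    have h3 : x ∈ S Set.univ := by
      rw [← hs]
      exact Substructure.subset_closure hx
    exact ⟨(hk x hx).trans hi, (h3 i hi h0).2⟩
  rw [hs] at h2
  have h3 : special (k - 1) ∈ S Set.univ := special_mem isUpperSet_univ trivial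
  have h4 := (h2 h3 (k - 1) le_rfl rfl).1
  have h5 : k ≤ k - 1 := h4
  omega

theorem not_equiv : IsEmpty (S (Set.Ici 0) ≃[Lang] S (Set.Ici 1)) := by
  constructor
  intro e
  -- the values of the operations in the subalgebras
  have hP : ∀ {K : Set ℤ} (x : S K), ((Structure.funMap fP
      (fun _ => x) : S K) : Node) = (x : Node).par := fun x => rfl
  have hF : ∀ {K : Set ℤ} (m : ℕ) (x : S K), ((Structure.funMap (fF m)
      (fun _ => x) : S K) : Node) = (x : Node).child m := fun m x => rfl
  have hG : ∀ {K : Set ℤ} (x : S K), ((Structure.funMap fG
      (fun _ => x) : S K) : Node) = (x : Node).gee := fun x => rfl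
  -- elements which are not children are special
  have hspec : ∀ {K : Set ℤ} (x : S K), (∀ (m : ℕ) (y : S K),
      Structure.funMap (fF m) (fun _ => y) ≠ x) →
      (x : Node) = special (x : Node).lev ∧ (x : Node).lev ∈ K := by
    intro K x hx
    have h0 : (x : Node).lab (x : Node).lev = 0 := by
      by_contra hne
      refine hx ((x : Node).lab (x : Node).lev - 1)
        (Structure.funMap fP (fun _ => x)) (Subtype.ext ?_)
      rw [hF, hP]
      exact child_par hne
    have h1 := x.2 _ le_rfl h0
    refine ⟨?_, h1.1⟩
    ext i
    · rfl
    · rcases lt_or_ge i (x : Node).lev with h | h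
      · exact (x : Node).low i h
      · exact h1.2 i h
  have hnotchild : ∀ {K : Set ℤ} (x : S K), (x : Node).lab (x : Node).lev = 0 → ∀ (m : ℕ) (y : S K),
      Structure.funMap (fF m) (fun _ => y) ≠ x := by
    intro K x hx m y h
    rw [← h, hF] at hx
    simp [child] at hx
  let a : S (Set.Ici 0) := ⟨special 0, special_mem (isUpperSet_Ici 0) Set.self_mem_Ici⟩
  have hea : ∀ (m : ℕ) (y : S (Set.Ici 1)),
      Structure.funMap (fF m) (fun _ => y) ≠ e a := by
    intro m y h
    apply hnotchild a rfl m (e.symm y)
    apply e.injective
    rw [← h]
    have := e.map_fun (fF m) (fun _ => e.symm y)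
    rw [this]
    congr 1
    funext _
    simp
  obtain ⟨h1, h2⟩ := hspec (e a) hea
  have h2' : 1 ≤ (e a : Node).lev := h2
  -- the level is even
  have hev : Even (e a : Node).lev := by
    have h3 : Structure.funMap fG (fun _ => a) = a := by
      apply Subtype.ext
      rw [hG]
      unfold gee
      rw [if_pos]
      exact Even.zero
    have h4 : Structure.funMap fG (fun _ => e a) = e a := by
      have := e.map_fun fG (fun _ => a)
      rw [h3] at this
      exact this.symm
    have h5 := congrArg Subtype.val h4
    rw [hG] at h5
    by_contra hcon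
    unfold gee at h5
    rw [if_neg hcon] at h5
    have h6 := congrArg Node.lev h5
    simp [par] at h6
  -- so the element has a special child
  have hl : 2 ≤ (e a : Node).lev := by
    rcases h2'.lt_or_eq with h | h
    · omega
    · rw [← h] at hev
      exact absurd hev (by decide)
  let y : S (Set.Ici 1) := ⟨special ((e a : Node).lev - 1),
    special_mem (isUpperSet_Ici 1) (Set.mem_Ici.2 (by omega))⟩
  have hy : Structure.funMap fP (fun _ => y) = e a := by
    apply Subtype.ext
    rw [hP]
    change (special ((e a : Node).lev - 1)).par = _
    rw [par_special, sub_add_cancel]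
    exact h1.symm
  have hz : Structure.funMap fP (fun _ => e.symm y) = a := by
    apply e.injective
    have := e.map_fun fP (fun _ => e.symm y)
    rw [this, ← hy]
    congr 1
    funext _
    simp
  have hznc : ∀ (m : ℕ) (u : S (Set.Ici 0)),
      Structure.funMap (fF m) (fun _ => u) ≠ e.symm y := by
    intro m u h
    apply hnotchild y rfl m (e u)
    rw [show y = e (e.symm y) by simp, ← h]
    exact (e.map_fun (fF m) (fun _ => u)).symm
  obtain ⟨h7, h8⟩ := hspec (e.symm y) hznc
  have h9 := congrArg (fun x : S (Set.Ici 0) => (x : Node).lev) hz
  simp only [hP] at h9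
  have h10 : (e.symm y : Node).lev + 1 = 0 := h9
  have h11 : 0 ≤ (e.symm y : Node).lev := h8
  omega

end Pool.Agent.Q300.Tree
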